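import Pool.Agent.Helper45.ML.INT
import Pool.Agent.Helper97.PD.Defs

/-!
# Project PD, block P7 (`StmtINTN`: `ML.StmtINT` with a level `N`)

Copy of helper45's proof of `ML.StmtINT`, with the level `N` of `ML.StmtLM` in the conclusion.
-/

set_option autoImplicit false

namespace Pool.Agent.PD

open VC IntermediateField NumberField IsDedekindDomain Pool.Agent.SC
open Pool.Agent.L (Inert L0 MM SamePlace OverV)
open Pool.Agent.LN (Geo Act HasSec GoodCurve IsRam DecPt)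
open Pool.Agent.M
open Pool.Agent.HG (Pr nm Ctx Gd)
open Pool.Agent.ML hiding StmtINT

/-- **BLOCK P7.** -/
theorem iNTN (hLM : ML.StmtLM) (hFT : M.StmtFT) (hCOC : ML.StmtCOC) (hNR : ML.StmtNR)
    (hAR : L.StmtAR) : StmtINTN := by
  classical
  intro k K0 E U _ _ _ _ _ _ _ _ _ _ _ _ ℓ h r hℓp hμ geo0 m Z hm zz hzz
  obtain ⟨n, hnℓ⟩ : ∃ n : ℕ, n = ℓ := ⟨ℓ, rfl⟩
  have geo : Geo k K0 E U n h r := by
    rw [hnℓ]
    exact geo0
  have hn : 0 < n := by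
    rw [hnℓ]
    exact hℓp.pos
  have hℓn : ℓ ∣ n := by rw [hnℓ]
  have hcl : IsAlgClosed E := geo.clE
  have halg : Algebra.IsAlgebraic k E := geo.algE
  have hch : CharZero E := charZero_of_injective_algebraMap (algebraMap k E).injective
  have hchU : CharZero U := charZero_of_injective_algebraMap (algebraMap E U).injective
  have hac : IsAlgClosure k E := ⟨hcl, halg⟩
  have hgal : IsGalois k E := IsAlgClosure.isGalois k E
  have hF := geo.ff
  have hnor : Normal K0 U := geo.normal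
  have hint : ∀ x : U, IsIntegral K0 x := fun x => hnor.isIntegral x
  have hℓ : 0 < ℓ := hℓp.pos
  have hn2 : 2 ≤ n := le_trans hℓp.two_le (Nat.le_of_dvd hn hℓn)
  obtain ⟨q, hq⟩ : ∃ q : ℕ, n = q * ℓ := by
    obtain ⟨q, hq⟩ := hℓn
    exact ⟨q, by rw [hq, mul_comm]⟩
  obtain ⟨hBfin, hNRc⟩ := hNR k K0 E U n ℓ h r hn hℓp hℓn hμ geo
  -- `h` and its root
  have hr0 : r ≠ 0 := by
    rintro rfl
    refine geo.rnot 1 one_pos (by omega) ?_
    rw [pow_one]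
    exact zero_mem _
  have hh0 : (inL0 h : L0 E K0 (U := U)) ≠ 0 := by
    intro h0
    have h1 : algebraMap K0 U h = 0 := congrArg (fun t : L0 E K0 (U := U) => (t : U)) h0
    rw [← geo.rpow] at h1
    exact pow_ne_zero n hr0 h1
  obtain ⟨r', hr'⟩ : ∃ r' : U, r' = r ^ q := ⟨_, rfl⟩
  have hr'ℓ : r' ^ ℓ = ((inL0 h : L0 E K0 (U := U)) : U) := by
    rw [hr', ← pow_mul, ← hq, geo.rpow]
    rfl
  -- the finite sets of branch points
  let BF : Finset (Place E (L0 E K0 (U := U))) := hBfin.toFinset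
  have hBF : ∀ b, b ∈ BF ↔ BPl ℓ h b := fun b => hBfin.mem_toFinset
  have hOfin := FF.finite_support_ord hF hh0
  let OF : Finset (Place E (L0 E K0 (U := U))) := hOfin.toFinset
  have hOF : ∀ b, b ∈ OF ↔ ord b.ring (inL0 h : L0 E K0 (U := U)) ≠ 0 := fun b =>
    hOfin.mem_toFinset
  obtain ⟨Z2, hZ2⟩ := NN_fin hFT hF (n := ℓ ^ m) (by positivity)
  let Z1 : Finset U := (BF ×ˢ BF).image fun π => zz π.1 π.2
  have hZ1 : ∀ b b', BPl ℓ h b → BPl ℓ h b' → zz b b' ∈ Z1 := fun b b' hb hb' =>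
    Finset.mem_image.2 ⟨(b, b'), Finset.mem_product.2 ⟨(hBF b).2 hb, (hBF b').2 hb'⟩, rfl⟩
  obtain ⟨N, hMN, hNff, hZN, hNst, Bad, hBad, hloc⟩ :=
    hLM k K0 E U n h r hn2 geo ((Z1 ∪ Z2) ∪ Z)
  have hLN : L0 E K0 (U := U) ≤ N :=
    (adjoin.mono E _ _ Set.subset_union_left).trans hMN
  have hrN : r ∈ N := hMN (subset_adjoin _ _ (Or.inr rfl))
  have hr'N : r' ∈ N := by rw [hr']; exact pow_mem hrN _
  have hNNN : NN E K0 (ℓ ^ m) ≤ N := hZ2 N hLN fun z hz =>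
    hZN z (Finset.mem_union_left _ (Finset.mem_union_right _ hz))
  have hNN2 : NN E K0 ℓ ≤ NN E K0 (ℓ ^ m) (U := U) := by
    refine adjoin_le_iff.2 ?_
    rintro w (⟨x, rfl⟩ | hw)
    · exact subset_adjoin _ _ (Or.inl ⟨x, rfl⟩)
    · exact (ur_pow hF hm hℓ hw).mem
  have hKL : ∀ x : K0, algebraMap K0 U x ∈ L0 E K0 (U := U) := fun x =>
    subset_adjoin _ _ ⟨x, rfl⟩
  refine ⟨N, ⟨hNff, fun x => hLN (hKL x), hNst⟩, hMN,
    fun z hz => hZN z (Finset.mem_union_right _ hz), ?_⟩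
  intro c₁ Φ₁ hc₁ hΦ₁0
  have hΦ₁ : Act (K0 := K0) n r c₁ Φ₁ := by
    rw [hnℓ]
    exact hΦ₁0
  obtain ⟨-, hordM, -, hst, -⟩ := hNRc c₁ Φ₁ hc₁ hΦ₁
  have hBPl : ∀ (σ : E ≃ₐ[k] E) (b b' : Place E (L0 E K0 (U := U))), Moves (Φ₁ σ) _ b b' →
      (BPl ℓ h b ↔ BPl ℓ h b') := by
    intro σ b b' hm
    unfold Pool.Agent.ML.BPl
    rw [hordM σ b b' hm]
  -- constants for the inertia
  have hCn : ∀ π : Place E (L0 E K0 (U := U)) × Place E (L0 E K0 (U := U)) ×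
      Place E (L0 E K0 (U := U)), ∃ C : Finset E, BPl ℓ h π.2.1 → BPl ℓ h π.2.2 →
      π.2.1 ≠ π.2.2 → ∀ N : IntermediateField E U,
      L0 E K0 (U := U) ≤ N → r' ∈ N → zz π.2.1 π.2.2 ∈ N → ∀ Q : Place E N, OverPl π.1 Q →
      ∀ (σ : E ≃+* E) (T : U ≃+* U), Semi K0 σ T → Moves T N Q Q → (∀ e ∈ C, σ e = e) →
      (∀ a : k, σ (algebraMap k E a) = algebraMap k E a) →
      ((π.1 ≠ π.2.1 → π.1 ≠ π.2.2 → ∀ s : rootsOfUnity ℓ k,
        T (zz π.2.1 π.2.2) = algebraMap k U (mv s) * zz π.2.1 π.2.2 → s = 1) ∧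
      (∀ s θ : rootsOfUnity ℓ k, T (zz π.2.1 π.2.2) = algebraMap k U (mv s) * zz π.2.1 π.2.2 →
        T r' = algebraMap k U (mv θ) * r' → ∃ e : ℤ, s ^ ord π.1.ring (inL0 h) = θ ^ e ∧
          (π.1 = π.2.1 → (ℓ : ℤ) ∣ e - 1) ∧ (π.1 = π.2.2 → (ℓ : ℤ) ∣ e + 1))) := by
    rintro ⟨b₀, b, b'⟩
    by_cases hb : BPl ℓ h b ∧ BPl ℓ h b' ∧ b ≠ b'
    · obtain ⟨hb1, hb2, hne⟩ := hb
      obtain ⟨hz0, f, hf, hord1, hord2, hord⟩ := hzz b b' hb1 hb2 hne
      have hf0 : f ≠ 0 := by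
        rintro rfl
        exact pow_ne_zero ℓ hz0 hf.symm
      obtain ⟨C, hC⟩ := inert_rel hμ hℓ hF b₀ hf0 hh0
      have hC' : ∀ N : IntermediateField E U,
          L0 E K0 (U := U) ≤ N → r' ∈ N → zz b b' ∈ N → ∀ Q : Place E N, OverPl b₀ Q →
          ∀ (σ : E ≃+* E) (T : U ≃+* U), Semi K0 σ T → Moves T N Q Q → (∀ e ∈ C, σ e = e) →
          (∀ a : k, σ (algebraMap k E a) = algebraMap k E a) →
          (∀ s θ : rootsOfUnity ℓ k, T (zz b b') = algebraMap k U (mv s) * zz b b' →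
            T r' = algebraMap k U (mv θ) * r' → ∃ e : ℤ, s ^ ord b₀.ring (inL0 h) = θ ^ e ∧
              (b₀ = b → (ℓ : ℤ) ∣ e - 1) ∧ (b₀ = b' → (ℓ : ℤ) ∣ e + 1)) := by
        intro N hLN hrN hzN Q hQ σ T hT hm hσ hσk s θ hs hθ
        refine ⟨ord b₀.ring f, hC (zz b b') r' hf.symm hr'ℓ N hLN hzN hrN Q hQ σ T hT hm hσ hσk s θ
          hs hθ, ?_, ?_⟩
        · rintro rfl
          exact hord1
        · rintro rfl
          exact hord2
      by_cases hcase : b₀ ≠ b ∧ b₀ ≠ b'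
      · obtain ⟨C2, hC2⟩ := inert_sign hμ hℓ hF b₀ hf0 (hord b₀ hcase.1 hcase.2)
        refine ⟨C ∪ C2, fun _ _ _ N hLN hrN hzN Q hQ σ T hT hm hσ hσk => ⟨fun _ _ s hs => ?_, ?_⟩⟩
        · exact hC2 (zz b b') hf.symm N hLN hzN Q hQ σ T hT hm
            (fun e he => hσ e (Finset.mem_union_right _ he)) hσk s hs
        · exact hC' N hLN hrN hzN Q hQ σ T hT hm
            (fun e he => hσ e (Finset.mem_union_left _ he)) hσk
      · refine ⟨C, fun _ _ _ N hLN hrN hzN Q hQ σ T hT hm hσ hσk =>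
          ⟨fun h1 h2 => absurd ⟨h1, h2⟩ hcase, hC' N hLN hrN hzN Q hQ σ T hT hm hσ hσk⟩⟩
    · exact ⟨∅, fun h2 h3 h4 => absurd ⟨h2, h3, h4⟩ hb⟩
  choose Cn hCn using hCn
  have hCs : ∀ b : Place E (L0 E K0 (U := U)), ∃ C : Finset E, ∀ g : E ≃ₐ[k] E,
      (∀ e ∈ C, g e = e) → Moves (Φ₁ g) _ b b := by
    intro b
    obtain ⟨L, hL, hLb⟩ := hst b
    obtain ⟨C, hC⟩ := fix_findim L hL
    exact ⟨C, fun g hg => hLb g (hC g hg)⟩
  choose Cs hCs using hCs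
  let D₁ : Finset E := (Polynomial.nthRoots n (algebraMap k E c₁)).toFinset
  have hD₁ : ∀ d : E, d ^ n = algebraMap k E c₁ → d ∈ D₁ := fun d hd => by
    rw [Multiset.mem_toFinset, Polynomial.mem_nthRoots hn]
    exact hd
  let Ctot : Finset E := D₁ ∪ (BF.biUnion Cs ∪ (OF ×ˢ (BF ×ˢ BF)).biUnion Cn)
  let SS : Finset E := ((Polynomial.nthRoots n (1 : E)).toFinset.filter fun ζ => ζ ≠ 1).image
    fun ζ => ζ - 1
  have hSS : ∀ ζ : E, ζ ^ n = 1 → ζ ≠ 1 → ζ - 1 ∈ SS := by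
    intro ζ h1 h2
    refine Finset.mem_image_of_mem _ (Finset.mem_filter.2 ⟨?_, h2⟩)
    rw [Multiset.mem_toFinset, Polynomial.mem_nthRoots hn]
    exact h1
  obtain ⟨Bad2, hBad2, hAR2⟩ := hAR k E SS Ctot (by
    intro s hs
    obtain ⟨ζ, h1, rfl⟩ := Finset.mem_image.1 hs
    exact sub_ne_zero.2 (Finset.mem_filter.1 h1).2)
  have hS₁ : ∀ g, Semi K0 (g : E ≃ₐ[k] E).toRingEquiv (Φ₁ g) := semi_act hΦ₁
  -- the action on the places
  let mw : (E ≃ₐ[k] E) → Place E (L0 E K0 (U := U)) → Place E (L0 E K0 (U := U)) := fun g b =>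
    (hS₁ g).im b
  have hmv : ∀ g b b', Moves (Φ₁ g) _ b b' ↔ mw g b = b' := fun g b b' => (hS₁ g).moves_iff b b'
  have hmvB : ∀ g b, BPl ℓ h b ↔ BPl ℓ h (mw g b) := fun g b =>
    hBPl g b _ ((hmv g b _).2 rfl)
  have hmv1 : ∀ b, mw 1 b = b := by
    intro b
    rw [← hmv, map_one]
    exact moves_one b
  have hmvmul : ∀ g g' b, mw (g * g') b = mw g (mw g' b) := by
    intro g g' b
    rw [← hmv, map_mul]
    exact moves_comp (hS₁ g').L0_map ((hmv g' b _).2 rfl) ((hmv g _ _).2 rfl)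
  have hmvinj : ∀ g b b', mw g b = mw g b' → b = b' := fun g b b' hb => (hS₁ g).im_inj hb
  have hgk : ∀ (g : E ≃ₐ[k] E) (a : k), g.toRingEquiv (algebraMap k E a) = algebraMap k E a :=
    fun g a => g.commutes a
  refine ⟨Bad ∪ Bad2, hBad.union hBad2, ?_⟩
  intro c Φ hc hΦ0 hagree
  have hΦ : Act (K0 := K0) n r c Φ := by
    rw [hnℓ]
    exact hΦ0
  have hS : ∀ g, Semi K0 (g : E ≃ₐ[k] E).toRingEquiv (Φ g) := semi_act hΦ
  have hΦk : ∀ (g : E ≃ₐ[k] E) (a : k), Φ g (algebraMap k U a) = algebraMap k U a := by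
    intro g a
    rw [IsScalarTower.algebraMap_apply k E U, hΦ.const, g.commutes]
  have hagN : ∀ g, ∀ x ∈ NN E K0 (ℓ ^ m) (U := U), Φ g x = Φ₁ g x := by
    intro g
    refine eq_on_adjoin (fun e => by rw [hΦ.const, hΦ₁.const]) ?_
    rintro x (⟨y, rfl⟩ | hx)
    · rw [hΦ.fixK, hΦ₁.fixK]
    · exact hagree g x hx
  have hagL : ∀ g, ∀ x ∈ L0 E K0 (U := U), Φ g x = Φ₁ g x := fun g => (hS g).eq_on_L0 (hS₁ g)
  -- the action on the root of `h`
  have hroot : ∀ g : E ≃ₐ[k] E, ∃ θ : rootsOfUnity ℓ k, Φ g r' = algebraMap k U (mv θ) * r' ∧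
      ∀ d : E, d ^ ℓ = algebraMap k E c → algebraMap k E (mv θ) * g d = d := by
    intro g
    have hΦ' : Act (K0 := K0) (q * ℓ) r c Φ := hq ▸ hΦ
    rw [hr']
    exact act_root hμ hℓ hc hΦ' g
  -- the signs
  have hεex : ∀ (g : E ≃ₐ[k] E) (b b' : Place E (L0 E K0 (U := U))), ∃ ε : rootsOfUnity ℓ k,
      BPl ℓ h b → BPl ℓ h b' → b ≠ b' → Φ g (zz b b') = algebraMap k U (mv ε) * Φ₁ g (zz b b') := by
    intro g b b'
    by_cases hb : BPl ℓ h b ∧ BPl ℓ h b' ∧ b ≠ b'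
    · obtain ⟨hb1, hb2, hne⟩ := hb
      obtain ⟨ε, hε⟩ := mu_of_pow hμ hℓ (hS g) (hS₁ g) (hzz b b' hb1 hb2 hne).1
        (hzz b b' hb1 hb2 hne).pow_mem
      exact ⟨ε, fun _ _ _ => hε⟩
    · exact ⟨1, fun h1 h2 h3 => absurd ⟨h1, h2, h3⟩ hb⟩
  choose ε hε using hεex
  have hΦ₁0 : ∀ g b b', BPl ℓ h b → BPl ℓ h b' → b ≠ b' → Φ₁ g (zz b b') ≠ 0 :=
    fun g b b' hb hb' hne =>
      (map_ne_zero_iff (Φ₁ g) (Φ₁ g).injective).2 (hzz b b' hb hb' hne).1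
  have hεu : ∀ g b b', BPl ℓ h b → BPl ℓ h b' → b ≠ b' → ∀ s : rootsOfUnity ℓ k,
      Φ g (zz b b') = algebraMap k U (mv s) * Φ₁ g (zz b b') → ε g b b' = s := by
    intro g b b' hb hb' hne s hs
    have h1 := hε g b b' hb hb' hne
    rw [hs] at h1
    have h2 := mul_right_cancel₀ (hΦ₁0 g b b' hb hb' hne) h1
    exact (mv_inj ((algebraMap k U).injective h2)).symm
  -- the cocycle relation
  have hcoc : ∀ g g' b b', BPl ℓ h b → BPl ℓ h b' → b ≠ b' →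
      ε (g * g') b b' = ε g' b b' * ε g (mw g' b) (mw g' b') := by
    intro g g' b b' hb hb' hne
    have hb1 : BPl ℓ h (mw g' b) := (hmvB g' b).1 hb
    have hb1' : BPl ℓ h (mw g' b') := (hmvB g' b').1 hb'
    have hne1 : mw g' b ≠ mw g' b' := fun h1 => hne (hmvinj g' _ _ h1)
    refine hεu _ b b' hb hb' hne _ ?_
    obtain ⟨w, hw⟩ : ∃ w : U, w = Φ₁ g' (zz b b') * (zz (mw g' b) (mw g' b'))⁻¹ := ⟨_, rfl⟩
    have hwR : UR E K0 ℓ w := by
      rw [hw]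
      exact ((hzz b b' hb hb' hne).map hF (hS₁ g')).div hF (hzz _ _ hb1 hb1' hne1)
    have hz0 := (hzz _ _ hb1 hb1' hne1).1
    have h1 : Φ₁ g' (zz b b') = w * zz (mw g' b) (mw g' b') := by
      rw [hw]; field_simp
    have h2 : Φ g w = Φ₁ g w := hagree g w (ur_pow hF hm hℓ hwR)
    rw [map_mul, map_mul]
    show Φ g (Φ g' (zz b b')) = _ * Φ₁ g (Φ₁ g' (zz b b'))
    rw [hε g' b b' hb hb' hne, map_mul, hΦk, h1, map_mul, map_mul, h2,
      hε g _ _ hb1 hb1' hne1, mv_mul, map_mul]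
    ring
  -- the set with action
  let Br : Type := {b : Place E (L0 E K0 (U := U)) // BPl ℓ h b}
  have hBrfin : Finite Br := hBfin
  let S : Type := {π : Br × Br // π.1 ≠ π.2}
  have hSfin : Finite S := Subtype.finite
  let _ : MulAction (E ≃ₐ[k] E) S :=
    { smul := fun g π => ⟨(⟨mw g π.1.1.1, (hmvB g _).1 π.1.1.2⟩,
        ⟨mw g π.1.2.1, (hmvB g _).1 π.1.2.2⟩), fun h1 => π.2 (Subtype.ext
          (hmvinj g _ _ (congrArg (fun t : Br => t.1) h1)))⟩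
      one_smul := fun π => by
        apply Subtype.ext
        exact Prod.ext (Subtype.ext (hmv1 _)) (Subtype.ext (hmv1 _))
      mul_smul := fun g g' π => by
        apply Subtype.ext
        exact Prod.ext (Subtype.ext (hmvmul g g' _)) (Subtype.ext (hmvmul g g' _)) }
  have hneS : ∀ π : S, π.1.1.1 ≠ π.1.2.1 := fun π h1 => π.2 (Subtype.ext h1)
  obtain ⟨δ', hδ0, hδ⟩ := hCOC k E ℓ S (fun g π => ε g π.1.1.1 π.1.2.1) hℓ
    (fun g g' π => hcoc g g' _ _ π.1.1.2 π.1.2.2 (hneS π)) (by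
      intro π
      obtain ⟨L1, hL1, h1⟩ := hΦ.cont (zz π.1.1.1 π.1.2.1)
      obtain ⟨L2, hL2, h2⟩ := hΦ₁.cont (zz π.1.1.1 π.1.2.1)
      obtain ⟨L3, hL3, h3⟩ := hst π.1.1.1
      obtain ⟨L4, hL4, h4⟩ := hst π.1.2.1
      refine ⟨(L1 ⊔ L2) ⊔ (L3 ⊔ L4), inferInstance, fun g hg => ?_⟩
      have g1 : ∀ x ∈ L1, g x = x := fun x hx => hg x (le_sup_left (a := L1 ⊔ L2)
        (le_sup_left (a := L1) hx))
      have g2 : ∀ x ∈ L2, g x = x := fun x hx => hg x (le_sup_left (a := L1 ⊔ L2)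
        (le_sup_right (b := L2) hx))
      have g3 : ∀ x ∈ L3, g x = x := fun x hx => hg x (le_sup_right (b := L3 ⊔ L4)
        (le_sup_left (a := L3) hx))
      have g4 : ∀ x ∈ L4, g x = x := fun x hx => hg x (le_sup_right (b := L3 ⊔ L4)
        (le_sup_right (b := L4) hx))
      refine ⟨hεu g _ _ π.1.1.2 π.1.2.2 (hneS π) 1 ?_, ?_⟩
      · rw [h1 g g1, h2 g g2, mv_one, map_one, one_mul]
      · apply Subtype.ext
        exact Prod.ext (Subtype.ext ((hmv g _ _).1 (h3 g g3)))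
          (Subtype.ext ((hmv g _ _).1 (h4 g g4))))
  -- the numbers `δ`
  let δ : Place E (L0 E K0 (U := U)) → Place E (L0 E K0 (U := U)) → E := fun b b' =>
    if hb : BPl ℓ h b ∧ BPl ℓ h b' ∧ b ≠ b' then
      δ' ⟨(⟨b, hb.1⟩, ⟨b', hb.2.1⟩), fun h1 => hb.2.2 (congrArg (fun t : Br => t.1) h1)⟩ else 1
  have hδe : ∀ b b' (hb : BPl ℓ h b ∧ BPl ℓ h b' ∧ b ≠ b'), δ b b' =
      δ' ⟨(⟨b, hb.1⟩, ⟨b', hb.2.1⟩), fun h1 => hb.2.2 (congrArg (fun t : Br => t.1) h1)⟩ :=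
    fun b b' hb => dif_pos hb
  have hδg : ∀ (g : E ≃ₐ[k] E) b b', BPl ℓ h b → BPl ℓ h b' → b ≠ b' →
      g (δ b b') = algebraMap k E (mv (ε g b b')) * δ (mw g b) (mw g b') := by
    intro g b b' hb hb' hne
    rw [hδe b b' ⟨hb, hb', hne⟩, hδe (mw g b) (mw g b') ⟨(hmvB g b).1 hb, (hmvB g b').1 hb',
      fun h1 => hne (hmvinj g _ _ h1)⟩]
    exact hδ g _
  have hδne : ∀ b b', BPl ℓ h b → BPl ℓ h b' → b ≠ b' → δ b b' ≠ 0 := by
    intro b b' hb hb' hne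
    rw [hδe b b' ⟨hb, hb', hne⟩]
    exact hδ0 _
  -- inertia fixes the branch points, and the reference action is trivial
  have hinert : ∀ v ∉ Bad ∪ Bad2, ∀ (O : ValuationSubring E) (F : E ≃ₐ[k] E) (p f : ℕ),
      DecPt v O F p f → ∀ τ : E ≃ₐ[k] E, Inert O τ.toRingEquiv →
      (∀ e ∈ Ctot, τ e = e) ∧ (∀ b, BPl ℓ h b → mw τ b = b) ∧
      ∀ b b', BPl ℓ h b → BPl ℓ h b' → Φ₁ τ (zz b b') = zz b b' := by
    intro v hv O F p f hD τ hτ
    have hv1 : v ∉ Bad := fun h1 => hv (Or.inl h1)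
    have hv2 : v ∉ Bad2 := fun h1 => hv (Or.inr h1)
    have h1 := (hAR2 v hv2 O hD.above).2 τ hτ
    refine ⟨h1, fun b hb => ?_, fun b b' hb hb' => ?_⟩
    · rw [← hmv]
      refine hCs b τ fun e he => h1 e ?_
      exact Finset.mem_union_right _ (Finset.mem_union_left _
        (Finset.mem_biUnion.2 ⟨b, (hBF b).2 hb, he⟩))
    · refine (hloc v hv1 c₁ hc₁ Φ₁ hΦ₁ O F p f hD).1 τ hτ ?_ _
        (Finset.mem_union_left _ (Finset.mem_union_left _ (hZ1 b b' hb hb')))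
      intro d hd
      exact h1 d (Finset.mem_union_left _ (hD₁ d hd))
  -- the constants of a triple are fixed by inertia
  have hCπ : ∀ v ∉ Bad ∪ Bad2, ∀ (O : ValuationSubring E) (F : E ≃ₐ[k] E) (p f : ℕ),
      DecPt v O F p f → ∀ τ : E ≃ₐ[k] E, Inert O τ.toRingEquiv → ∀ b₀ b b',
      ord b₀.ring (inL0 h : L0 E K0 (U := U)) ≠ 0 → BPl ℓ h b → BPl ℓ h b' →
      ∀ e ∈ Cn (b₀, b, b'), τ.toRingEquiv e = e := by
    intro v hv O F p f hD τ hτ b₀ b b' hb₀ hb hb' e he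
    refine (hinert v hv O F p f hD τ hτ).1 e (Finset.mem_union_right _ (Finset.mem_union_right _
      (Finset.mem_biUnion.2 ⟨(b₀, b, b'), ?_, he⟩)))
    exact Finset.mem_product.2 ⟨(hOF b₀).2 hb₀, Finset.mem_product.2
      ⟨(hBF b).2 hb, (hBF b').2 hb'⟩⟩
  have hne0 : ∀ (d : ℕ) (b : Place E (L0 E K0 (U := U))),
      ¬ (d : ℤ) ∣ ord b.ring (inL0 h) → ord b.ring (inL0 h : L0 E K0 (U := U)) ≠ 0 := by
    intro d b hb h0
    rw [h0] at hb
    exact hb (dvd_zero _)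
  refine ⟨δ, hδne, ?_, ?_, ?_⟩
  · -- eqv
    intro g b b' a a' hb hb' hne ha ha'
    rw [hmv] at ha ha'
    rw [map_pow, hδg g b b' hb hb' hne, ha, ha', mul_pow, ← map_pow, mv_pow, map_one, one_mul]
  · -- even
    intro v hv O F p f hD τ hτ hτd b b' hb hb' hne
    obtain ⟨h1, h2, h3⟩ := hinert v hv O F p f hD τ hτ
    have hv1 : v ∉ Bad := fun h1 => hv (Or.inl h1)
    have hv2 : v ∉ Bad2 := fun h1 => hv (Or.inr h1)
    have hloc' := hloc v hv1 c hc Φ hΦ O F p f hD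
    have hz := hε τ b b' hb hb' hne
    rw [h3 b b' hb hb'] at hz
    have hε1 : ε τ b b' = 1 := by
      by_cases hfx : ∀ d : E, d ^ n = algebraMap k E c → τ d = d
      · have h4 := hloc'.1 τ hτ hfx _ (Finset.mem_union_left _ (Finset.mem_union_left _ (hZ1 b b' hb hb')))
        refine hεu τ b b' hb hb' hne 1 ?_
        rw [h4, h3 b b' hb hb', mv_one, map_one, one_mul]
      · push Not at hfx
        obtain ⟨d₀, hd₀, hτd₀⟩ := hfx
        have hram : IsRam n v c := ram_of_moved hn hD.above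
          (fun ζ hζ hζ1 => (hAR2 v hv2 O hD.above).1 _ (hSS ζ hζ hζ1)) hτ hc hd₀ hτd₀
        obtain ⟨b₀, QN, hbQ, -, hτQ, hgr⟩ := hloc'.2 hram
        have hb₀n : ¬ (n : ℤ) ∣ ord b₀.ring (inL0 h : L0 E K0 (U := U)) := fun h5 =>
          hgr n dvd_rfl h5 hram
        have hb₀0 := hne0 n b₀ hb₀n
        have hzN : zz b b' ∈ N := hZN _ (Finset.mem_union_left _ (Finset.mem_union_left _ (hZ1 b b' hb hb')))
        obtain ⟨hA, hB⟩ := hCn (b₀, b, b') hb hb' hne N hLN hr'N hzN QN hbQ _ _ (hS τ) (hτQ τ hτ)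
          (hCπ v hv O F p f hD τ hτ b₀ b b' hb₀0 hb hb') (hgk τ)
        obtain ⟨θ, hθ1, hθ2⟩ := hroot τ
        have hθ : θ = 1 := by
          obtain ⟨d, hd⟩ := IsAlgClosed.exists_pow_nat_eq (algebraMap k E c) hℓ
          have hd0 : d ≠ 0 := by
            rintro rfl
            rw [zero_pow hℓ.ne'] at hd
            exact hc ((_root_.map_eq_zero _).1 hd.symm)
          have h6 := hθ2 d hd
          rw [hτd d hd] at h6
          have h7 : algebraMap k E (mv θ) = 1 := mul_right_cancel₀ hd0 (by rw [h6, one_mul])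
          apply mv_inj
          apply (algebraMap k E).injective
          rw [h7, mv_one, map_one]
        by_cases hbℓ : BPl ℓ h b₀
        · obtain ⟨e, h8, -⟩ := hB _ _ hz hθ1
          refine mu_cancel hℓp hbℓ (u' := 1) ?_
          rw [h8, hθ, one_zpow, one_zpow]
        · refine hA ?_ ?_ _ hz
          · intro h9
            have h9' : b₀ = b := h9
            rw [h9'] at hbℓ
            exact hbℓ hb
          · intro h9
            have h9' : b₀ = b' := h9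
            rw [h9'] at hbℓ
            exact hbℓ hb'
    rw [hδg τ b b' hb hb' hne, hε1, h2 b hb, h2 b' hb', mv_one, map_one, one_mul]
  · -- odd
    intro v hv hodd O F p f hD
    have hv1 : v ∉ Bad := fun h1 => hv (Or.inl h1)
    have hramn : IsRam n v c := by
      intro d hd
      refine hodd (d ^ q) ?_
      rw [hd, map_pow, ← pow_mul, ← hq]
    obtain ⟨b₀, QN, hbQ, hFQ, hτQ, hgr⟩ := (hloc v hv1 c hc Φ hΦ O F p f hD).2 hramn
    have hb₀ : BPl ℓ h b₀ := fun h5 => hgr ℓ hℓn h5 hodd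
    have hb₀0 := hne0 ℓ b₀ hb₀
    obtain ⟨P, hPQ⟩ := exists_down (K0 := K0) (hNN2.trans hNNN)
      (fun x => L0_le_NN ℓ (hKL x)) hint QN
    obtain ⟨Q, hQQ⟩ := exists_down (K0 := K0) hNNN (fun x => L0_le_NN _ (hKL x)) hint QN
    have hbP : OverPl b₀ P := fun x hx hx' => by
      rw [hbQ x hx (hLN hx), ← hPQ x hx' (hLN hx)]
    have hPQ' : OverPl P Q := fun x hx hx' => by
      rw [hPQ x hx (hNNN hx'), ← hQQ x hx' (hNNN hx')]
    have hF0 : Moves (Φ F) _ b₀ b₀ := moves_over hLN hbQ hbQ hFQ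
    have hF1 : Moves (Φ F) _ Q Q := moves_over hNNN hQQ hQQ hFQ
    refine ⟨b₀, P, Q, hb₀, hbP, hPQ', moves_congr (hagL F) hF0, moves_congr (hagN F) hF1,
      fun d hd => hgr d (by rw [hnℓ]; exact hd), ?_, ?_, QN, hbQ, hFQ, hτQ⟩
    · -- inertia
      intro τ hτ d hd hτd
      obtain ⟨h1, h2, h3⟩ := hinert v hv O F p f hD τ hτ
      obtain ⟨θ, hθ1, hθ2⟩ := hroot τ
      obtain ⟨ω, hω⟩ := mu_root hℓp hb₀ θ
      refine ⟨algebraMap k E (mv ω), ?_, ?_, ?_⟩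
      · rw [← map_pow, mv_pow, map_one]
      · rw [← map_zpow₀, ← mv_zpow, hω]
        exact hθ2 d hd
      intro b b' hb hb' hne
      have hm' := hτQ τ hτ
      have hzN : zz b b' ∈ N := hZN _ (Finset.mem_union_left _ (Finset.mem_union_left _ (hZ1 b b' hb hb')))
      obtain ⟨hA, hB⟩ := hCn (b₀, b, b') hb hb' hne N hLN hr'N hzN QN hbQ _ _ (hS τ) hm'
        (hCπ v hv O F p f hD τ hτ b₀ b b' hb₀0 hb hb') (hgk τ)
      have hz := hε τ b b' hb hb' hne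
      rw [h3 b b' hb hb'] at hz
      have hδτ := hδg τ b b' hb hb' hne
      rw [h2 b hb, h2 b' hb'] at hδτ
      obtain ⟨e, he, he1, he2⟩ := hB _ _ hz hθ1
      refine ⟨fun hcase => ?_, fun hcase => ?_, fun hn1 hn2 => ?_⟩
      · have h5 : ε τ b b' = ω := by
          refine mu_cancel hℓp hb₀ ?_
          rw [hω, he, mu_zpow_congr θ (he1 hcase.symm), zpow_one]
        rw [hδτ, h5]
      · have h5 : ε τ b b' = ω⁻¹ := by
          refine mu_cancel hℓp hb₀ ?_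
          rw [inv_zpow, hω, he]
          have h6 : (ℓ : ℤ) ∣ e - (-1) := by
            rw [sub_neg_eq_add]
            exact he2 hcase.symm
          rw [mu_zpow_congr θ h6, zpow_neg_one]
        have hω0 : algebraMap k E (mv ω) ≠ 0 := (_root_.map_ne_zero _).2 (mv_ne ω)
        rw [hδτ, h5, mv_inv, map_inv₀, mul_inv_cancel_left₀ hω0]
      · have h5 : ε τ b b' = 1 := hA (Ne.symm hn1) (Ne.symm hn2) _ hz
        rw [hδτ, h5, mv_one, map_one, one_mul]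
    · -- the sign of Frobenius
      intro b b' hb hb' hne hn1 hn2 j hmb hmb'
      have hzN : zz b b' ∈ N := hZN _ (Finset.mem_union_left _ (Finset.mem_union_left _ (hZ1 b b' hb hb')))
      have hNZN : NZ E K0 ℓ (zz b b') ≤ N := by
        refine adjoin_le_iff.2 ?_
        rintro w (hw | hw)
        · exact (hNN2.trans hNNN) (subset_adjoin _ _ hw)
        · have hw' : w = zz b b' := hw
          rw [hw']
          exact hzN
      obtain ⟨Q₀, hQ₀⟩ := exists_down (K0 := K0) hNZN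
        (fun x => NN_le_NZ ℓ _ (L0_le_NN ℓ (hKL x))) hint QN
      have hPQ₀ : OverPl P Q₀ := fun x hx hx' => by
        rw [hPQ x hx (hNZN hx'), ← hQ₀ x hx' (hNZN hx')]
      rw [← map_pow] at hmb hmb'
      rw [hmv] at hmb hmb'
      have hFN : ∀ x ∈ N, Φ F x ∈ N := fun x hx =>
        hNst (Φ F) (hΦ.fixK F) (fun e => ⟨F e, hΦ.const F e⟩) x hx
      have hFn : Moves (Φ (F ^ j)) N QN QN := by
        rw [map_pow]
        exact moves_pow hFN hFQ j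
      have hsg : sgn ℓ (Φ₁ (F ^ j)) P (zz b b') = ε (F ^ j) b b' :=
        sgn_eq hμ hℓ hF (hzz b b' hb hb' hne) (Ne.symm hn1) (Ne.symm hn2) hbP hPQ₀ (hS₁ (F ^ j))
          (hS (F ^ j)) (hgk (F ^ j)) hmb hmb' (fun x hx => hagN (F ^ j) x (hNN2 hx))
          (moves_over hNZN hQ₀ hQ₀ hFn) (hε (F ^ j) b b' hb hb' hne)
      rw [hδg (F ^ j) b b' hb hb' hne, hmb, hmb', ← map_pow, hsg]
      rfl

end Pool.Agent.PD
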